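import Pool.Agent.Helper87.P3.Spec

/-! Part ZERO of the P3 blueprint (MP_a38173_lc). -/

set_option autoImplicit false
set_option linter.unusedSectionVars false

namespace Pool.Agent.Helper51.P3

open Finset Pool.Agent.Helper87.P3

variable {M ι : Type} [DecidableEq M]

lemma cheap_mono {I : Inst M ι} {u : ι → ℕ} {A B : Finset M} (h : A ⊆ B) (hB : cheap I u B) :
    cheap I u A := fun k => (I.mono k A B h).trans (hB k)

/-- a non-cheap bundle contains a minimal one with a winner -/
lemma exists_win {I : Inst M ι} {u : ι → ℕ} {A : Finset M} (h : ¬ cheap I u A) :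
    ∃ Z ⊆ A, ∃ k, win I u k Z := by
  classical
  obtain ⟨Z, hZ, hmin⟩ := Finset.exists_min_image (A.powerset.filter fun B => ¬ cheap I u B)
    Finset.card ⟨A, by simp [h]⟩
  simp only [mem_filter, mem_powerset] at hZ hmin
  have he : emin I u Z := by
    intro g hg
    by_contra hc
    have := hmin (Z.erase g) ⟨(erase_subset g Z).trans hZ.1, hc⟩
    have h2 := Finset.card_erase_lt_of_mem hg
    omega
  refine ⟨Z, hZ.1, ?_⟩
  have h3 := hZ.2
  unfold cheap at h3
  push Not at h3
  obtain ⟨k, hk⟩ := h3
  refine ⟨k, he, ?_⟩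
  have hne : Z.Nonempty := by
    rw [Finset.nonempty_iff_ne_empty]
    rintro rfl
    rw [I.v0] at hk
    omega
  obtain ⟨g, hg⟩ := hne
  have h4 := I.unit k (Z.erase g) g
  rw [Finset.insert_erase hg] at h4
  have h5 := he g hg k
  omega

lemma dem_of_win {I : Inst M ι} {u : ι → ℕ} {V Z : Finset M} {g : M} {w : ι} (hV : cheap I u V)
    (hZ : Z ⊆ insert g V) (hw : win I u w Z) : dem I u w V := by
  refine ⟨hV, ?_⟩
  have h1 := I.mono w _ _ hZ
  have h2 := I.unit w V g
  have h3 := hw.2
  have h4 := hV w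
  omega

lemma dem_mono {I : Inst M ι} {u : ι → ℕ} {i : ι} {A B : Finset M} (h : A ⊆ B)
    (hB : cheap I u B) (hA : dem I u i A) : dem I u i B := by
  refine ⟨hB, ?_⟩
  have h1 := I.mono i _ _ h
  have h2 := hB i
  have h3 := hA.2
  omega

lemma pair_le {I : Inst M ι} {u : ι → ℕ} {i : ι} {A B P P' : Finset M} (hA : dem I u i A)
    (hB : cheap I u B) (hAB : Disjoint A B) (hP : Disjoint P P') (h : P ∪ P' = A ∪ B) :
    min (I.v i P) (I.v i P') ≤ I.v i A := by
  refine (I.feas i P P' A B hP hAB h).trans ?_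
  rw [hA.2]
  exact max_le le_rfl (hB i)

/-- a complete allocation in which everybody demands the own bundle is good -/
lemma good_of_dem [Fintype M] {I : Inst M ι} {u : ι → ℕ} {a b c : ι} {A B C : Finset M}
    (ht : Tri a b c) (hd : Dis3 A B C) (hu : A ∪ B ∪ C = univ) (ha : dem I u a A)
    (hb : dem I u b B) (hc : dem I u c C) : Good I := by
  refine ⟨a, b, c, A, B, C, ht, hd, hu, ?_, ?_, ?_, ?_, ?_, ?_⟩
  · intro P P' hP h
    exact pair_le ha hb.1 hd.1 hP h
  · intro P P' hP h
    exact pair_le ha hc.1 hd.2.2 hP h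
  · intro P P' hP h
    exact pair_le hb ha.1 hd.1.symm hP (by rw [h, union_comm])
  · intro P P' hP h
    exact pair_le hb hc.1 hd.2.1 hP h
  · intro P P' hP h
    exact pair_le hc ha.1 hd.2.2.symm hP (by rw [h, union_comm])
  · intro P P' hP h
    exact pair_le hc hb.1 hd.2.1.symm hP (by rw [h, union_comm])

lemma tri_rot {a b c : ι} (h : Tri a b c) : Tri b c a := by
  obtain ⟨h1, h2, h3, h4⟩ := h
  exact ⟨h2, h3.symm, h1.symm, fun k => by rcases h4 k with h | h | h <;> simp [h]⟩

lemma tri_swap {a b c : ι} (h : Tri a b c) : Tri b a c := by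
  obtain ⟨h1, h2, h3, h4⟩ := h
  exact ⟨h1.symm, h3, h2, fun k => by rcases h4 k with h | h | h <;> simp [h]⟩

lemma dis_rot {A B C : Finset M} (h : Dis3 A B C) : Dis3 B C A :=
  ⟨h.2.1, h.2.2.symm, h.1.symm⟩

lemma dis_swap {A B C : Finset M} (h : Dis3 A B C) : Dis3 B A C :=
  ⟨h.1.symm, h.2.2, h.2.1⟩

/-- replacing the first bundle by a subset of `insert g V` with `g` unallocated -/
lemma dis_ins {V U W Z : Finset M} {g : M} (h : Dis3 V U W) (hU : g ∉ U) (hW : g ∉ W)
    (hZ : Z ⊆ insert g V) : Dis3 Z U W := by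
  refine ⟨?_, h.2.1, ?_⟩
  · refine Disjoint.mono_left hZ ?_
    rw [disjoint_insert_left]
    exact ⟨hU, h.1⟩
  · refine Disjoint.mono_left hZ ?_
    rw [disjoint_insert_left]
    exact ⟨hW, h.2.2⟩

/-- ZERO -/
theorem zero_thm : S_ZERO := by
  intro M ι _ _ I u x a b V U W ht hd hx ha hb hno
  -- strong induction on the number of unallocated items
  have main : ∀ n : ℕ, ∀ (x a b : ι) (V U W : Finset M), Tri x a b → Dis3 V U W →
      dem I u x V → dem I u a U → dem I u b W → (univ \ (V ∪ U ∪ W)).card = n → Good I := by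
    intro n
    induction n using Nat.strong_induction_on with
    | _ n ih =>
    intro x a b V U W ht hd hx ha hb hn
    by_cases hcomp : V ∪ U ∪ W = univ
    · exact good_of_dem ht hd hcomp hx ha hb
    obtain ⟨g, hg⟩ : ∃ g, g ∉ V ∪ U ∪ W := by
      by_contra hcon
      push Not at hcon
      exact hcomp (Finset.eq_univ_iff_forall.2 hcon)
    have hgV : g ∉ V := fun h => hg (by simp [h])
    have hgU : g ∉ U := fun h => hg (by simp [h])
    have hgW : g ∉ W := fun h => hg (by simp [h])
    have hlt : (univ \ (insert g (V ∪ U ∪ W))).card < n := by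
      rw [← hn]
      apply Finset.card_lt_card
      rw [Finset.ssubset_iff_of_subset (Finset.sdiff_subset_sdiff le_rfl (subset_insert _ _))]
      exact ⟨g, by simp [hgV, hgU, hgW], by simp⟩
    by_cases hV : cheap I u (insert g V)
    · have hd' : Dis3 (insert g V) U W := dis_ins hd hgU hgW le_rfl
      refine ih _ hlt x a b (insert g V) U W ht hd' (dem_mono (subset_insert _ _) hV hx) ha hb ?_
      rw [insert_union, insert_union]
    by_cases hU : cheap I u (insert g U)
    · have hd' : Dis3 V (insert g U) W := dis_rot (dis_rot (dis_ins (dis_rot hd) hgW hgV le_rfl))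
      refine ih _ hlt x a b V (insert g U) W ht hd' hx (dem_mono (subset_insert _ _) hU ha) hb ?_
      rw [union_insert, insert_union]
    by_cases hW : cheap I u (insert g W)
    · have hd' : Dis3 V U (insert g W) :=
        dis_rot (dis_ins (dis_rot (dis_rot hd)) hgV hgU le_rfl)
      refine ih _ hlt x a b V U (insert g W) ht hd' hx ha (dem_mono (subset_insert _ _) hW hb) ?_
      rw [union_insert]
    -- three minimal bundles
    obtain ⟨ZV, hZV, kV, hkV⟩ := exists_win hV
    obtain ⟨ZU, hZU, kU, hkU⟩ := exists_win hU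
    obtain ⟨ZW, hZW, kW, hkW⟩ := exists_win hW
    have dV := dem_of_win hx.1 hZV hkV
    have dU := dem_of_win ha.1 hZU hkU
    have dW := dem_of_win hb.1 hZW hkW
    have eV : Dis3 ZV U W := dis_ins hd hgU hgW hZV
    have eU : Dis3 ZU W V := dis_ins (dis_rot hd) hgW hgV hZU
    have eW : Dis3 ZW V U := dis_ins (dis_rot (dis_rot hd)) hgV hgU hZW
    exfalso
    -- kV is a or b
    have cV : kV = a ∨ kV = b := by
      rcases ht.2.2.2 kV with h | h | h
      · subst h
        exact (hno a b kV U W ZV (tri_rot ht) (dis_rot eV) (Or.inl ha) (Or.inl hb) hkV).elim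
      · exact Or.inl h
      · exact Or.inr h
    have cU : kU = x ∨ kU = b := by
      rcases ht.2.2.2 kU with h | h | h
      · exact Or.inl h
      · subst h
        exact (hno b x kU W V ZU (tri_rot (tri_rot ht)) (dis_rot eU) (Or.inl hb) (Or.inl hx)
          hkU).elim
      · exact Or.inr h
    have cW : kW = x ∨ kW = a := by
      rcases ht.2.2.2 kW with h | h | h
      · exact Or.inl h
      · exact Or.inr h
      · subst h
        exact (hno x a kW V U ZW ht (dis_rot eW) (Or.inl hx) (Or.inl ha) hkW).elim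
    rcases cV with hv | hv
    · rcases cU with hu | hu
      · -- (x:U, b:W, a:ZV)
        subst hv hu
        exact hno kU b kV U W ZV (tri_swap (tri_rot (tri_rot ht))) (dis_rot eV) (Or.inl dU)
          (Or.inl hb) hkV
      · rcases cW with hw | hw
        · subst hv hu hw
          exact hno kU kW kV U W ZV (tri_rot (tri_rot ht)) (dis_rot eV) (Or.inl dU) (Or.inl dW) hkV
        · subst hw hu
          exact hno x kW kU V W ZU ht (dis_swap (dis_rot eU)) (Or.inl hx) (Or.inl dW) hkU
    · rcases cW with hw | hw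
      · subst hv hw
        exact hno kW a kV W U ZV ht (dis_swap (dis_rot eV)) (Or.inl dW) (Or.inl ha) hkV
      · rcases cU with hu | hu
        · subst hv hu hw
          exact hno kU kW kV U W ZV ht (dis_rot eV) (Or.inl dU) (Or.inl dW) hkV
        · subst hw hu
          exact hno x kW kU V W ZU ht (dis_swap (dis_rot eU)) (Or.inl hx) (Or.inl dW) hkU
  exact main _ x a b V U W ht hd hx ha hb rfl

end Pool.Agent.Helper51.P3
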